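import Pool.Agent.Lib_helper94.Six.Sieve

/-! The exponents 2, 3, 7, 25, 53. -/

namespace Pool.Agent.Lib_helper94.Six

open Zsqrtd

theorem K2 (x y : ℤ) : x ^ 2 - 6 ≠ y ^ 2 := by
  intro h
  have h2 : ((x ^ 2 - 6 : ℤ) : ZMod 4) = ((y ^ 2 : ℤ) : ZMod 4) := by rw [h]
  push_cast at h2
  generalize (x : ZMod 4) = a at h2
  generalize (y : ZMod 4) = b at h2
  revert a b
  decide

theorem key107 : ∀ a : ZMod 107, a ^ 2 ≠ 6 ∧ a ^ 2 ≠ 7 ∧ a ^ 2 ≠ 5 := by decide +kernel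

theorem K53 (x y : ℤ) : x ^ 2 - 6 ≠ y ^ 53 := by
  intro h
  have hp : Nat.Prime 107 := by norm_num
  have : Fact (Nat.Prime 107) := ⟨hp⟩
  have h2 : ((x ^ 2 - 6 : ℤ) : ZMod 107) = ((y ^ 53 : ℤ) : ZMod 107) := by rw [h]
  push_cast at h2
  have hy : (y : ZMod 107) = 0 ∨ ((y : ZMod 107) ^ 53) ^ 2 = 1 := by
    by_cases h0 : (y : ZMod 107) = 0
    · left; exact h0
    · right
      rw [← pow_mul]
      exact ZMod.pow_card_sub_one_eq_one h0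
  obtain ⟨k1, k2, k3⟩ := key107 (x : ZMod 107)
  rcases hy with hy | hy
  · rw [hy, zero_pow (by norm_num)] at h2
    exact k1 (sub_eq_zero.1 h2)
  · rw [← h2] at hy
    have : ((x : ZMod 107) ^ 2 - 6 - 1) * ((x : ZMod 107) ^ 2 - 6 + 1) = 0 := by
      linear_combination hy
    rcases mul_eq_zero.1 this with h3 | h3
    · exact k2 (by linear_combination h3)
    · exact k3 (by linear_combination h3)

theorem K3 (x y : ℤ) : x ^ 2 - 6 ≠ y ^ 3 := by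
  intro h
  -- y = 3 mod 8
  have h8 : ((x ^ 2 - 6 : ℤ) : ZMod 8) = ((y ^ 3 : ℤ) : ZMod 8) := by rw [h]
  push_cast at h8
  have hx : ((x : ZMod 8) ^ 2 = 1 ∧ (y : ZMod 8) = 3) := by
    generalize (x : ZMod 8) = a at h8 ⊢
    generalize (y : ZMod 8) = b at h8 ⊢
    revert a b
    decide
  obtain ⟨-, hy⟩ := hx
  have hN0 : 0 < (y - 1) ^ 2 + 3 := by positivity
  obtain ⟨N, hN⟩ := Int.eq_ofNat_of_zero_le hN0.le
  have hN8 : ((N : ℕ) : ZMod 8) = 7 := by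
    have : (((y - 1) ^ 2 + 3 : ℤ) : ZMod 8) = (((N : ℕ) : ℤ) : ZMod 8) := by rw [hN]
    push_cast at this
    rw [hy] at this
    rw [← this]; decide
  have hN8' : N % 8 = 7 := by
    have : ((N : ℕ) : ZMod 8) = ((7 : ℕ) : ZMod 8) := by rw [hN8]; rfl
    have := (ZMod.natCast_eq_natCast_iff' N 7 8).1 this
    simpa using this
  have hNodd : Odd N := Nat.odd_iff.2 (by omega)
  have hdvd : (N : ℤ) ∣ x ^ 2 + 2 := by
    have : x ^ 2 + 2 = (y + 2) * ((y - 1) ^ 2 + 3) := by linear_combination h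
    rw [this, hN]; exact Dvd.intro_left _ rfl
  have hJ1 : jacobiSym (-2) N = -1 := by
    rw [jacobiSym.at_neg_two hNodd]
    have : ((N : ℕ) : ZMod 8) = 7 := hN8
    rw [this]; decide
  have hJ2 : jacobiSym (x ^ 2) N = jacobiSym (-2) N := by
    apply jacobiSym.mod_left'
    have : x ^ 2 ≡ -2 [ZMOD N] := by
      rw [Int.modEq_iff_dvd]
      obtain ⟨c, hc⟩ := hdvd
      exact ⟨-c, by linear_combination -hc⟩
    exact this
  have hJ3 : jacobiSym (x ^ 2) N = (jacobiSym x N) ^ 2 := jacobiSym.pow_left x 2 N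
  rw [hJ3, hJ1] at hJ2
  have : 0 ≤ (jacobiSym x N) ^ 2 := sq_nonneg _
  omega

theorem pow5_im (a b : ℤ) : ((⟨a, b⟩ : ℤ√6) ^ 5).im = b * (5 * a ^ 4 + 60 * a ^ 2 * b ^ 2 + 36 * b ^ 4) := by
  simp [pow_succ]; ring

theorem no5 (g : ℤ√6) : (g ^ 5).im ≠ 1 := by
  obtain ⟨a, b⟩ := g
  rw [pow5_im]
  intro h
  have hb : IsUnit b := IsUnit.of_mul_eq_one _ h
  have hb2 : b ^ 2 = 1 := by
    rcases Int.isUnit_iff.1 hb with h1 | h1 <;> rw [h1] <;> norm_num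
  have hb4 : b ^ 4 = 1 := by
    have : b ^ 4 = (b ^ 2) ^ 2 := by ring
    rw [this, hb2]; norm_num
  rw [hb2, hb4] at h
  have h3 : 0 ≤ a ^ 4 := by positivity
  have h4 : 0 ≤ a ^ 2 := by positivity
  rcases Int.isUnit_iff.1 hb with h1 | h1 <;> rw [h1] at h <;> nlinarith

theorem pow7 (a b : ℤ) : (⟨a, b⟩ : ℤ√6) ^ 7 =
    ⟨a ^ 7 + 126 * a ^ 5 * b ^ 2 + 1260 * a ^ 3 * b ^ 4 + 1512 * a * b ^ 6,
     7 * a ^ 6 * b + 210 * a ^ 4 * b ^ 3 + 756 * a ^ 2 * b ^ 5 + 216 * b ^ 7⟩ := by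
  ext
  · simp [pow_succ]; ring
  · simp [pow_succ]; ring

theorem key49 : ∀ e ∈ ([(1, 0), (5, 2), (49, 20), (485, 198), (4801, 1960), (47525, 19402),
    (470449, 192060)] : List (ZMod 49 × ZMod 49)), ∀ a b : ZMod 49,
    e.1 * (7 * a ^ 6 * b + 210 * a ^ 4 * b ^ 3 + 756 * a ^ 2 * b ^ 5 + 216 * b ^ 7) +
    (a ^ 7 + 126 * a ^ 5 * b ^ 2 + 1260 * a ^ 3 * b ^ 4 + 1512 * a * b ^ 6) * e.2 ≠ 1 := by
  decide +kernel

theorem K7_aux (c d x a b : ℤ) (hm : ((c : ZMod 49), (d : ZMod 49)) ∈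
    ([(1, 0), (5, 2), (49, 20), (485, 198), (4801, 1960), (47525, 19402),
    (470449, 192060)] : List (ZMod 49 × ZMod 49)))
    (hg : (⟨x, 1⟩ : ℤ√6) = ⟨c, d⟩ * ⟨a, b⟩ ^ 7) : False := by
  rw [pow7] at hg
  have h1 := congrArg Zsqrtd.im hg
  rw [Zsqrtd.im_mul] at h1
  simp only at h1
  have h2 := congrArg (Int.cast : ℤ → ZMod 49) h1
  push_cast at h2
  refine key49 _ hm (a : ZMod 49) (b : ZMod 49) ?_
  simp only
  rw [h2]; ring

theorem K7 (x y : ℤ) : x ^ 2 - 6 ≠ y ^ 7 := by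
  intro h
  obtain ⟨j, hj, g, hg⟩ := descent (by norm_num) (by decide) h
  obtain ⟨a, b⟩ := g
  have e0 : (eps ^ 0 : ℤ√6) = ⟨1, 0⟩ := by ext <;> simp [eps]
  have e1 : (eps ^ 1 : ℤ√6) = ⟨5, 2⟩ := by ext <;> simp [eps]
  have e2 : (eps ^ 2 : ℤ√6) = ⟨49, 20⟩ := by ext <;> simp [eps, pow_succ]
  have e3 : (eps ^ 3 : ℤ√6) = ⟨485, 198⟩ := by ext <;> simp [eps, pow_succ]
  have e4 : (eps ^ 4 : ℤ√6) = ⟨4801, 1960⟩ := by ext <;> simp [eps, pow_succ]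
  have e5 : (eps ^ 5 : ℤ√6) = ⟨47525, 19402⟩ := by ext <;> simp [eps, pow_succ]
  have e6 : (eps ^ 6 : ℤ√6) = ⟨470449, 192060⟩ := by ext <;> simp [eps, pow_succ]
  interval_cases j
  · rw [e0] at hg; exact K7_aux 1 0 x a b (by decide +kernel) hg
  · rw [e1] at hg; exact K7_aux 5 2 x a b (by decide +kernel) hg
  · rw [e2] at hg; exact K7_aux 49 20 x a b (by decide +kernel) hg
  · rw [e3] at hg; exact K7_aux 485 198 x a b (by decide +kernel) hg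
  · rw [e4] at hg; exact K7_aux 4801 1960 x a b (by decide +kernel) hg
  · rw [e5] at hg; exact K7_aux 47525 19402 x a b (by decide +kernel) hg
  · rw [e6] at hg; exact K7_aux 470449 192060 x a b (by decide +kernel) hg

end Pool.Agent.Lib_helper94.Six
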