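import Pool.Agent.Lib_helper94.Six.T1
import Pool.Agent.Lib_helper94.Six.T2
import Pool.Agent.Lib_helper94.Six.T3
import Pool.Agent.Lib_helper94.Six.T4
import Pool.Agent.Lib_helper94.Six.T5
import Pool.Agent.Lib_helper94.Six.T6
import Pool.Agent.Lib_helper94.Six.T7
import Pool.Agent.Lib_helper94.Six.T8
import Pool.Agent.Lib_helper94.Six.Special

/-! Assembly: x^2 - 6 is not an m-th power for every m in the list M, and every d from 2 to 2000
outside nine values is a multiple of a member of M. -/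

namespace Pool.Agent.Lib_helper94.Six

open Zsqrtd

theorem K25 (x y : ℤ) : x ^ 2 - 6 ≠ y ^ 25 := by
  intro h
  obtain ⟨j, hj, g, hg⟩ := kill_survive (by norm_num) (by decide) P25 k25 h
  have key : ∀ i : ℕ, (⟨x, 1⟩ : ℤ√6) = eps ^ (5 * i) * g ^ 25 → False := by
    intro i hi
    apply no5 (eps ^ i * g ^ 5)
    have : (eps ^ i * g ^ 5) ^ 5 = (⟨x, 1⟩ : ℤ√6) := by rw [hi]; ring
    rw [this]
  simp only [List.mem_cons, List.not_mem_nil, or_false] at hj
  rcases hj with rfl | rfl
  · exact key 1 hg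
  · exact key 4 hg

def M0 : List ℕ := [2, 3, 7, 11, 23, 25, 43, 47, 53, 61, 65, 67, 71, 73, 79, 83, 85, 89, 95, 97, 101, 103, 107, 109]

theorem core0 : ∀ m ∈ M0, ∀ x y : ℤ, x ^ 2 - 6 ≠ y ^ m := by
  simp only [M0, List.forall_mem_cons, List.not_mem_nil, false_imp_iff, implies_true, and_true]
  exact ⟨K2, K3, K7, K11, K23, K25, K43, K47, K53, K61, K65, K67, K71, K73, K79, K83, K85, K89, K95, K97, K101, K103, K107, K109⟩

def M1 : List ℕ := [113, 127, 131, 137, 139, 145, 149, 151, 155, 157, 163, 167, 169, 173, 179, 181, 185, 191, 193, 197, 199, 205, 211, 221]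

theorem core1 : ∀ m ∈ M1, ∀ x y : ℤ, x ^ 2 - 6 ≠ y ^ m := by
  simp only [M1, List.forall_mem_cons, List.not_mem_nil, false_imp_iff, implies_true, and_true]
  exact ⟨K113, K127, K131, K137, K139, K145, K149, K151, K155, K157, K163, K167, K169, K173, K179, K181, K185, K191, K193, K197, K199, K205, K211, K221⟩

def M2 : List ℕ := [223, 227, 229, 233, 239, 241, 247, 251, 257, 263, 269, 271, 277, 281, 283, 289, 293, 295, 307, 311, 313, 317, 323, 331]

theorem core2 : ∀ m ∈ M2, ∀ x y : ℤ, x ^ 2 - 6 ≠ y ^ m := by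
  simp only [M2, List.forall_mem_cons, List.not_mem_nil, false_imp_iff, implies_true, and_true]
  exact ⟨K223, K227, K229, K233, K239, K241, K247, K251, K257, K263, K269, K271, K277, K281, K283, K289, K293, K295, K307, K311, K313, K317, K323, K331⟩

def M3 : List ℕ := [337, 347, 349, 353, 359, 361, 367, 373, 377, 379, 383, 389, 397, 401, 403, 409, 419, 421, 431, 433, 439, 443, 449, 457]

theorem core3 : ∀ m ∈ M3, ∀ x y : ℤ, x ^ 2 - 6 ≠ y ^ m := by
  simp only [M3, List.forall_mem_cons, List.not_mem_nil, false_imp_iff, implies_true, and_true]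
  exact ⟨K337, K347, K349, K353, K359, K361, K367, K373, K377, K379, K383, K389, K397, K401, K403, K409, K419, K421, K431, K433, K439, K443, K449, K457⟩

def M4 : List ℕ := [461, 463, 467, 479, 481, 487, 491, 493, 499, 503, 509, 521, 523, 527, 533, 541, 547, 551, 557, 563, 569, 571, 577, 587]

theorem core4 : ∀ m ∈ M4, ∀ x y : ℤ, x ^ 2 - 6 ≠ y ^ m := by
  simp only [M4, List.forall_mem_cons, List.not_mem_nil, false_imp_iff, implies_true, and_true]
  exact ⟨K461, K463, K467, K479, K481, K487, K491, K493, K499, K503, K509, K521, K523, K527, K533, K541, K547, K551, K557, K563, K569, K571, K577, K587⟩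

def M5 : List ℕ := [589, 593, 599, 601, 607, 613, 617, 619, 629, 631, 641, 643, 647, 653, 659, 661, 673, 677, 683, 691, 697, 701, 703, 709]

theorem core5 : ∀ m ∈ M5, ∀ x y : ℤ, x ^ 2 - 6 ≠ y ^ m := by
  simp only [M5, List.forall_mem_cons, List.not_mem_nil, false_imp_iff, implies_true, and_true]
  exact ⟨K589, K593, K599, K601, K607, K613, K617, K619, K629, K631, K641, K643, K647, K653, K659, K661, K673, K677, K683, K691, K697, K701, K703, K709⟩

def M6 : List ℕ := [719, 727, 733, 739, 743, 751, 757, 761, 767, 769, 773, 779, 787, 797, 809, 811, 821, 823, 827, 829, 839, 841, 853, 857]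

theorem core6 : ∀ m ∈ M6, ∀ x y : ℤ, x ^ 2 - 6 ≠ y ^ m := by
  simp only [M6, List.forall_mem_cons, List.not_mem_nil, false_imp_iff, implies_true, and_true]
  exact ⟨K719, K727, K733, K739, K743, K751, K757, K761, K767, K769, K773, K779, K787, K797, K809, K811, K821, K823, K827, K829, K839, K841, K853, K857⟩

def M7 : List ℕ := [859, 863, 877, 881, 883, 887, 899, 907, 911, 919, 929, 937, 941, 947, 953, 961, 967, 971, 977, 983, 991, 997, 1003, 1009]

theorem core7 : ∀ m ∈ M7, ∀ x y : ℤ, x ^ 2 - 6 ≠ y ^ m := by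
  simp only [M7, List.forall_mem_cons, List.not_mem_nil, false_imp_iff, implies_true, and_true]
  exact ⟨K859, K863, K877, K881, K883, K887, K899, K907, K911, K919, K929, K937, K941, K947, K953, K961, K967, K971, K977, K983, K991, K997, K1003, K1009⟩

def M8 : List ℕ := [1013, 1019, 1021, 1031, 1033, 1039, 1049, 1051, 1061, 1063, 1069, 1073, 1087, 1091, 1093, 1097, 1103, 1109, 1117, 1121, 1123, 1129, 1147, 1151]

theorem core8 : ∀ m ∈ M8, ∀ x y : ℤ, x ^ 2 - 6 ≠ y ^ m := by
  simp only [M8, List.forall_mem_cons, List.not_mem_nil, false_imp_iff, implies_true, and_true]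
  exact ⟨K1013, K1019, K1021, K1031, K1033, K1039, K1049, K1051, K1061, K1063, K1069, K1073, K1087, K1091, K1093, K1097, K1103, K1109, K1117, K1121, K1123, K1129, K1147, K1151⟩

def M9 : List ℕ := [1153, 1163, 1171, 1181, 1187, 1189, 1193, 1201, 1213, 1217, 1223, 1229, 1231, 1237, 1249, 1259, 1271, 1277, 1279, 1283, 1289, 1291, 1297, 1301]

theorem core9 : ∀ m ∈ M9, ∀ x y : ℤ, x ^ 2 - 6 ≠ y ^ m := by
  simp only [M9, List.forall_mem_cons, List.not_mem_nil, false_imp_iff, implies_true, and_true]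
  exact ⟨K1153, K1163, K1171, K1181, K1187, K1189, K1193, K1201, K1213, K1217, K1223, K1229, K1231, K1237, K1249, K1259, K1271, K1277, K1279, K1283, K1289, K1291, K1297, K1301⟩

def M10 : List ℕ := [1303, 1307, 1319, 1321, 1327, 1361, 1367, 1369, 1373, 1381, 1399, 1409, 1423, 1427, 1429, 1433, 1439, 1447, 1451, 1453, 1459, 1471, 1481, 1483]

theorem core10 : ∀ m ∈ M10, ∀ x y : ℤ, x ^ 2 - 6 ≠ y ^ m := by
  simp only [M10, List.forall_mem_cons, List.not_mem_nil, false_imp_iff, implies_true, and_true]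
  exact ⟨K1303, K1307, K1319, K1321, K1327, K1361, K1367, K1369, K1373, K1381, K1399, K1409, K1423, K1427, K1429, K1433, K1439, K1447, K1451, K1453, K1459, K1471, K1481, K1483⟩

def M11 : List ℕ := [1487, 1489, 1493, 1499, 1511, 1517, 1523, 1531, 1543, 1549, 1553, 1559, 1567, 1571, 1579, 1583, 1597, 1601, 1607, 1609, 1613, 1619, 1621, 1627]

theorem core11 : ∀ m ∈ M11, ∀ x y : ℤ, x ^ 2 - 6 ≠ y ^ m := by
  simp only [M11, List.forall_mem_cons, List.not_mem_nil, false_imp_iff, implies_true, and_true]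
  exact ⟨K1487, K1489, K1493, K1499, K1511, K1517, K1523, K1531, K1543, K1549, K1553, K1559, K1567, K1571, K1579, K1583, K1597, K1601, K1607, K1609, K1613, K1619, K1621, K1627⟩

def M12 : List ℕ := [1637, 1657, 1663, 1667, 1669, 1681, 1693, 1697, 1699, 1709, 1711, 1721, 1723, 1733, 1741, 1747, 1753, 1759, 1777, 1783, 1787, 1789, 1801, 1811]

theorem core12 : ∀ m ∈ M12, ∀ x y : ℤ, x ^ 2 - 6 ≠ y ^ m := by
  simp only [M12, List.forall_mem_cons, List.not_mem_nil, false_imp_iff, implies_true, and_true]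
  exact ⟨K1637, K1657, K1663, K1667, K1669, K1681, K1693, K1697, K1699, K1709, K1711, K1721, K1723, K1733, K1741, K1747, K1753, K1759, K1777, K1783, K1787, K1789, K1801, K1811⟩

def M13 : List ℕ := [1823, 1829, 1831, 1847, 1861, 1867, 1871, 1873, 1877, 1879, 1889, 1901, 1907, 1913, 1931, 1933, 1949, 1951, 1973, 1979, 1987, 1993, 1997, 1999]

theorem core13 : ∀ m ∈ M13, ∀ x y : ℤ, x ^ 2 - 6 ≠ y ^ m := by
  simp only [M13, List.forall_mem_cons, List.not_mem_nil, false_imp_iff, implies_true, and_true]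
  exact ⟨K1823, K1829, K1831, K1847, K1861, K1867, K1871, K1873, K1877, K1879, K1889, K1901, K1907, K1913, K1931, K1933, K1949, K1951, K1973, K1979, K1987, K1993, K1997, K1999⟩

def M : List ℕ := M0 ++ (M1 ++ (M2 ++ (M3 ++ (M4 ++ (M5 ++ (M6 ++ (M7 ++ (M8 ++ (M9 ++ (M10 ++ (M11 ++ (M12 ++ (M13)))))))))))))

theorem core : ∀ m ∈ M, ∀ x y : ℤ, x ^ 2 - 6 ≠ y ^ m := by
  intro m hm
  simp only [M, List.mem_append] at hm
  rcases hm with hm | hm | hm | hm | hm | hm | hm | hm | hm | hm | hm | hm | hm | hm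
  · exact core0 m hm
  · exact core1 m hm
  · exact core2 m hm
  · exact core3 m hm
  · exact core4 m hm
  · exact core5 m hm
  · exact core6 m hm
  · exact core7 m hm
  · exact core8 m hm
  · exact core9 m hm
  · exact core10 m hm
  · exact core11 m hm
  · exact core12 m hm
  · exact core13 m hm

/-- the nine exceptional exponents -/
def exc : List ℕ := [5, 13, 17, 19, 29, 31, 37, 41, 59]

theorem coverB : allB (fun d => or (Nat.ble d 1) (or (mem d exc)
    (anyL (fun m => Nat.beq (Nat.mod d m) 0) M))) 2001 = true := by decide +kernel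

theorem mem_of_mem {c : ℕ} : ∀ {L : List ℕ}, c ∈ L → mem c L = true
  | [], h => by simp at h
  | a :: L, h => by
    rw [mem, Bool.or_eq_true]
    rcases List.mem_cons.1 h with h | h
    · left; exact beq_of_eq h
    · right; exact mem_of_mem h

theorem cover (d : ℕ) (h2 : 2 ≤ d) (h3 : d ≤ 2000) (hE : d ∉ exc) : ∃ m ∈ M, m ∣ d := by
  have h := allB_spec coverB d (by omega)
  rw [Bool.or_eq_true, Bool.or_eq_true] at h
  rcases h with h | h | h
  · have := Nat.le_of_ble_eq_true h
    omega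
  · exact absurd (mem_spec h) hE
  · obtain ⟨m, hm, hd⟩ := anyL_spec h
    exact ⟨m, hm, Nat.dvd_of_mod_eq_zero (Nat.eq_of_beq_eq_true hd)⟩

theorem main (p q d : ℕ) (x y : ℤ) (hp : Even p) (hd : d ∣ q) (h2 : 2 ≤ d) (h3 : d ≤ 2000)
    (hE : d ∉ exc) : x ^ p - y ^ q ≠ 6 := by
  obtain ⟨a, ha⟩ := hp
  obtain ⟨m, hm, c, hc⟩ := cover d h2 h3 hE
  obtain ⟨k, hk⟩ := hd
  intro h
  apply core m hm (x ^ a) (y ^ (c * k))
  have e1 : (x ^ a) ^ 2 = x ^ p := by rw [← pow_mul, ha]; congr 1; ring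
  have e2 : (y ^ (c * k)) ^ m = y ^ q := by rw [← pow_mul, hk, hc]; congr 1; ring
  rw [e1, e2]; linarith

end Pool.Agent.Lib_helper94.Six
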