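import Mathlib

/-! The ring Z[sqrt 6]: norm-Euclidean, units, and the descent for x^2 - 6 = y^q. -/

namespace Pool.Agent.Lib_helper94.Six

open Zsqrtd

theorem nonsq : ∀ n : ℤ, (6 : ℤ) ≠ n * n := by
  intro n h
  have h1 : n ≤ 2 := by nlinarith
  have h2 : -2 ≤ n := by nlinarith
  interval_cases n <;> omega

theorem nonsq120 : ∀ n : ℤ, (120 : ℤ) ≠ n * n := by
  intro n h
  have h1 : n ≤ 10 := by nlinarith
  have h2 : -10 ≤ n := by nlinarith
  interval_cases n <;> omega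

theorem norm_ne {a : ℤ√6} (h : a ≠ 0) : a.norm ≠ 0 := fun h' =>
  h ((Zsqrtd.norm_eq_zero nonsq a).1 h')

instance instNZD : NoZeroDivisors (ℤ√6) := ⟨fun {a b} h => by
  by_contra hc
  push Not at hc
  have h1 := norm_ne hc.1
  have h2 := norm_ne hc.2
  have h3 : (a * b).norm = 0 := by rw [h]; simp
  rw [Zsqrtd.norm_mul] at h3
  exact (mul_ne_zero h1 h2) h3⟩

instance instDom : IsDomain (ℤ√6) := NoZeroDivisors.to_isDomain _

theorem no24 (V n : ℤ) (h : 24 * V ^ 2 = 5 * n ^ 2) : n = 0 := by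
  have h1 : (⟨5 * n, V⟩ : ℤ√120).norm = 0 := by
    rw [Zsqrtd.norm_def]; simp only; linarith [h]
  have h2 := (Zsqrtd.norm_eq_zero nonsq120 _).1 h1
  have h3 : (5 * n : ℤ) = 0 := by
    have := congrArg Zsqrtd.re h2
    simpa using this
  omega

theorem near (v n : ℤ) (hn : 0 < n) : ∃ t : ℤ, -n ≤ 2 * (v - n * t) ∧ 2 * (v - n * t) ≤ n := by
  have h0 := Int.emod_nonneg v hn.ne'
  have h1 := Int.emod_lt_of_pos v hn
  have h2 := Int.emod_add_mul_ediv v n
  by_cases h : 2 * (v % n) ≤ n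
  · refine ⟨v / n, ?_, ?_⟩ <;> linarith
  · refine ⟨v / n + 1, ?_, ?_⟩ <;> push Not at h <;> nlinarith

/-- choice of the rational part -/
theorem pick (a T n : ℤ) (hn : 0 < n) (ha0 : 0 ≤ a) (ha : 2 * a ≤ n) (hT : 0 ≤ T)
    (hT2 : 2 * T ≤ 3 * n ^ 2) (hne : 4 * T ≠ 5 * n ^ 2) :
    |a ^ 2 - T| < n ^ 2 ∨ |(n - a) ^ 2 - T| < n ^ 2 ∨ |(n + a) ^ 2 - T| < n ^ 2 := by
  by_cases h1 : T < n ^ 2
  · left
    rw [abs_lt]
    constructor <;> nlinarith
  · push Not at h1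
    right
    by_cases h2 : T - n ^ 2 < (n - a) ^ 2
    · left
      rw [abs_lt]
      constructor <;> nlinarith
    · push Not at h2
      right
      rw [abs_lt]
      constructor
      · nlinarith
      · rcases eq_or_lt_of_le ha with h3 | h3
        · rcases eq_or_lt_of_le h2 with h4 | h4
          · exfalso
            apply hne
            have : n = 2 * a := h3.symm
            subst this
            nlinarith
          · have : n = 2 * a := h3.symm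
            subst this
            nlinarith
        · nlinarith

theorem key (u v n : ℤ) (hn : 0 < n) :
    ∃ s t : ℤ, |(u - n * s) ^ 2 - 6 * (v - n * t) ^ 2| < n ^ 2 := by
  obtain ⟨t, ht1, ht2⟩ := near v n hn
  obtain ⟨s, hs1, hs2⟩ := near u n hn
  set V := v - n * t with hV
  set U := u - n * s with hU
  have hT2 : 2 * (6 * V ^ 2) ≤ 3 * n ^ 2 := by nlinarith
  have hT0 : 0 ≤ 6 * V ^ 2 := by positivity
  have hne : 4 * (6 * V ^ 2) ≠ 5 * n ^ 2 := by
    intro h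
    have := no24 V n (by linarith)
    omega
  rcases le_total 0 U with hU0 | hU0
  · rcases pick U (6 * V ^ 2) n hn hU0 hs2 hT0 hT2 hne with h | h | h
    · exact ⟨s, t, h⟩
    · refine ⟨s + 1, t, ?_⟩
      have : (u - n * (s + 1)) ^ 2 = (n - U) ^ 2 := by rw [hU]; ring
      rw [this]; exact h
    · refine ⟨s - 1, t, ?_⟩
      have : (u - n * (s - 1)) ^ 2 = (n + U) ^ 2 := by rw [hU]; ring
      rw [this]; exact h
  · rcases pick (-U) (6 * V ^ 2) n hn (by linarith) (by linarith) hT0 hT2 hne with h | h | h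
    · refine ⟨s, t, ?_⟩
      have : (-U) ^ 2 = U ^ 2 := by ring
      rw [this] at h; exact h
    · refine ⟨s - 1, t, ?_⟩
      have : (u - n * (s - 1)) ^ 2 = (n - -U) ^ 2 := by rw [hU]; ring
      rw [this]; exact h
    · refine ⟨s + 1, t, ?_⟩
      have : (u - n * (s + 1)) ^ 2 = (n + -U) ^ 2 := by rw [hU]; ring
      rw [this]; exact h

theorem euclid (a b : ℤ√6) (hb : b ≠ 0) : ∃ q : ℤ√6, (a - b * q).norm.natAbs < b.norm.natAbs := by
  have hn0 := norm_ne hb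
  have hn : 0 < |b.norm| := abs_pos.2 hn0
  obtain ⟨s, t, hst⟩ := key (a * star b).re (a * star b).im |b.norm| hn
  -- sign
  obtain ⟨σ, hσ, hσ2⟩ : ∃ σ : ℤ, σ * b.norm = |b.norm| ∧ σ * σ = 1 := by
    rcases abs_choice b.norm with h | h
    · exact ⟨1, by rw [h]; ring, by ring⟩
    · exact ⟨-1, by rw [h]; ring, by ring⟩
  refine ⟨⟨σ * s, σ * t⟩, ?_⟩
  set q : ℤ√6 := ⟨σ * s, σ * t⟩ with hq
  have h1 : (a - b * q) * star b = ⟨(a * star b).re - |b.norm| * s, (a * star b).im - |b.norm| * t⟩ := by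
    have h2 : (a - b * q) * star b = a * star b - (b.norm : ℤ√6) * q := by
      rw [Zsqrtd.norm_eq_mul_conj]; ring
    rw [h2, ← hσ]
    ext
    · simp [hq]; ring
    · simp [hq]; ring
  have h3 : ((a - b * q) * star b).norm = (a - b * q).norm * b.norm := by
    rw [Zsqrtd.norm_mul, Zsqrtd.norm_conj]
  rw [h1, Zsqrtd.norm_def] at h3
  simp only at h3
  have h4 : |(a - b * q).norm| * |b.norm| < |b.norm| * |b.norm| := by
    rw [← abs_mul, ← h3]
    calc _ = |((a * star b).re - |b.norm| * s) ^ 2 - 6 * ((a * star b).im - |b.norm| * t) ^ 2| := by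
            congr 1; ring
      _ < |b.norm| ^ 2 := hst
      _ = _ := by ring
  have h5 : |(a - b * q).norm| < |b.norm| := lt_of_mul_lt_mul_right h4 hn.le
  rw [Int.abs_eq_natAbs, Int.abs_eq_natAbs] at h5
  exact_mod_cast h5

theorem pid : IsPrincipalIdealRing (ℤ√6) := by
  classical
  refine ⟨fun I => ?_⟩
  by_cases hI : I = ⊥
  · exact ⟨0, by rw [hI]; simp⟩
  obtain ⟨x0, hx0, hx00⟩ := Submodule.exists_mem_ne_zero_of_ne_bot hI
  have hex : ∃ n : ℕ, ∃ x ∈ I, x ≠ 0 ∧ x.norm.natAbs = n := ⟨_, x0, hx0, hx00, rfl⟩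
  obtain ⟨b, hbI, hb0, hbn⟩ := Nat.find_spec hex
  refine ⟨b, le_antisymm ?_ ?_⟩
  · intro a ha
    obtain ⟨q, hq⟩ := euclid a b hb0
    have hmem : a - b * q ∈ I := I.sub_mem ha (I.mul_mem_right _ hbI)
    have hz : a - b * q = 0 := by
      by_contra hne
      have := Nat.find_min' hex ⟨a - b * q, hmem, hne, rfl⟩
      omega
    rw [Submodule.mem_span_singleton]
    exact ⟨q, by rw [smul_eq_mul]; linear_combination -hz⟩
  · rw [Submodule.span_singleton_le_iff_mem]; exact hbI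

/-- the fundamental unit -/
def eps : ℤ√6 := ⟨5, 2⟩

theorem unit_norm {u : ℤ√6} (hu : IsUnit u) : u.re ^ 2 - 6 * u.im ^ 2 = 1 := by
  have h := Zsqrtd.norm_eq_one_iff.2 hu
  rw [Int.natAbs_eq_iff] at h
  rw [Zsqrtd.norm_def] at h
  rcases h with h | h
  · push_cast at h; linarith [h]
  · exfalso
    have h2 : (((u.re * u.re - 6 * u.im * u.im : ℤ)) : ZMod 3) = ((-1 : ℤ) : ZMod 3) := by
      rw [h]; simp
    push_cast at h2
    have h6 : (6 : ZMod 3) = 0 := by decide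
    rw [h6] at h2
    generalize (u.re : ZMod 3) = a at h2
    generalize (u.im : ZMod 3) = b at h2
    revert a b
    decide

def fund : Pell.Solution₁ 6 := Pell.Solution₁.mk 5 2 (by norm_num)

theorem fund_isFund : Pell.IsFundamental fund := by
  refine ⟨by simp [fund], by simp [fund], ?_⟩
  intro b hb
  simp only [fund, Pell.Solution₁.x_mk]
  by_contra hlt
  push Not at hlt
  have hp := b.prop
  have h1 : b.x = 2 ∨ b.x = 3 ∨ b.x = 4 := by omega
  rcases h1 with h | h | h <;> rw [h] at hp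
  · omega
  · have : 6 * b.y ^ 2 = 8 := by linarith
    omega
  · have : 6 * b.y ^ 2 = 15 := by linarith
    omega

theorem coe_fund : ((fund : Pell.Solution₁ 6) : ℤ√6) = eps := rfl

theorem unit_form (q : ℕ) (hq : 0 < q) (u : ℤ√6) (hu : IsUnit u) :
    ∃ j < q, ∃ w : ℤ√6, u = eps ^ j * w ^ q ∨ u = -(eps ^ j * w ^ q) := by
  let a : Pell.Solution₁ 6 := Pell.Solution₁.mk u.re u.im (unit_norm hu)
  have ha : (a : ℤ√6) = u := rfl
  obtain ⟨n, hn⟩ := fund_isFund.eq_zpow_or_neg_zpow a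
  have hqz : (0 : ℤ) < q := by exact_mod_cast hq
  have h0 := Int.emod_nonneg n hqz.ne'
  have h1 := Int.emod_lt_of_pos n hqz
  have h2 := Int.emod_add_mul_ediv n q
  have h3 : fund ^ n = fund ^ ((n % q).toNat) * (fund ^ (n / q)) ^ q := by
    rw [← zpow_natCast, ← zpow_natCast, ← zpow_mul, ← zpow_add]
    congr 1
    rw [Int.toNat_of_nonneg h0, mul_comm (n / (q:ℤ)) (q:ℤ)]
    exact h2.symm
  refine ⟨(n % q).toNat, by omega, ((fund ^ (n / q) : Pell.Solution₁ 6) : ℤ√6), ?_⟩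
  rw [h3] at hn
  rcases hn with hn | hn
  · left
    rw [← ha, hn]; rfl
  · right
    rw [← ha, hn]; rfl

theorem coprime6 {x y : ℤ} {q : ℕ} (hq : 2 ≤ q) (h : x ^ 2 - 6 = y ^ q) : IsCoprime (y ^ q) 24 := by
  obtain ⟨k, rfl⟩ := Nat.exists_eq_add_of_le hq
  have h2 : ¬ (2 : ℤ) ∣ y := by
    rintro ⟨z, rfl⟩
    have h3 : (4 : ℤ) ∣ x ^ 2 - 6 := by
      rw [h]; exact ⟨z ^ 2 * (2 * z) ^ k, by ring⟩
    obtain ⟨m, hm⟩ := h3
    rcases Int.even_or_odd' x with ⟨c, hc | hc⟩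
    · subst hc; have : 4 * c ^ 2 - 6 = 4 * m := by linarith [hm]
      omega
    · subst hc; have : 4 * (c ^ 2 + c) - 5 = 4 * m := by linarith [hm]
      omega
  have h3 : ¬ (3 : ℤ) ∣ y := by
    rintro ⟨z, rfl⟩
    have h3 : (9 : ℤ) ∣ x ^ 2 - 6 := by
      rw [h]; exact ⟨z ^ 2 * (3 * z) ^ k, by ring⟩
    obtain ⟨m, hm⟩ := h3
    have h4 : (3 : ℤ) ∣ x ^ 2 := ⟨3 * m + 2, by linarith⟩
    have h5 : (3 : ℤ) ∣ x := Int.prime_three.dvd_of_dvd_pow h4
    obtain ⟨c, hc⟩ := h5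
    subst hc
    have : 9 * c ^ 2 - 6 = 9 * m := by linarith [hm]
    omega
  have c2 : IsCoprime y 2 := ((Int.prime_two.coprime_iff_not_dvd).2 h2).symm
  have c3 : IsCoprime y 3 := ((Int.prime_three.coprime_iff_not_dvd).2 h3).symm
  have c24 : IsCoprime y 24 := by
    have : (24 : ℤ) = 2 * (2 * (2 * 3)) := by norm_num
    rw [this]
    exact c2.mul_right (c2.mul_right (c2.mul_right c3))
  exact c24.pow_left

/-- the descent -/
theorem descent {x y : ℤ} {q : ℕ} (hq : 2 ≤ q) (hodd : Odd q) (h : x ^ 2 - 6 = y ^ q) :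
    ∃ j < q, ∃ g : ℤ√6, (⟨x, 1⟩ : ℤ√6) = eps ^ j * g ^ q := by
  have := pid
  obtain ⟨m, k, hmk⟩ := coprime6 hq h
  have hprod : (⟨x, 1⟩ : ℤ√6) * ⟨x, -1⟩ = (y : ℤ√6) ^ q := by
    have e0 : (⟨x, 1⟩ : ℤ√6) * ⟨x, -1⟩ = ((x * x - 6 : ℤ) : ℤ√6) := by
      ext
      · rw [Zsqrtd.re_intCast]; simp; ring
      · rw [Zsqrtd.im_intCast]; simp
    rw [← Int.cast_pow, ← h, e0, pow_two]
  have hcop : IsCoprime (⟨x, 1⟩ : ℤ√6) ⟨x, -1⟩ := by
    refine ⟨(m : ℤ√6) * ⟨x, -1⟩ + (k : ℤ√6) * (⟨x, 1⟩ - 2 * ⟨x, -1⟩), (k : ℤ√6) * ⟨x, -1⟩, ?_⟩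
    have e1 : ((⟨x, 1⟩ : ℤ√6) - ⟨x, -1⟩) ^ 2 = ((24 : ℤ) : ℤ√6) := by
      rw [pow_two]
      ext
      · simp
      · simp
    have e2 : (m : ℤ√6) * (y : ℤ√6) ^ q + (k : ℤ√6) * ((24 : ℤ) : ℤ√6) = 1 := by
      exact_mod_cast congrArg (fun z : ℤ => (z : ℤ√6)) hmk
    rw [← e1, ← hprod] at e2
    linear_combination e2
  obtain ⟨d, u, hd⟩ := exists_associated_pow_of_mul_eq_pow' hcop hprod
  obtain ⟨j, hj, w, hw⟩ := unit_form q (by omega) u u.isUnit
  rcases hw with hw | hw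
  · refine ⟨j, hj, d * w, ?_⟩
    rw [← hd, hw]; ring
  · refine ⟨j, hj, -(d * w), ?_⟩
    rw [← hd, hw, hodd.neg_pow]; ring

end Pool.Agent.Lib_helper94.Six
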