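import Pool.Agent.Lib_helper94.Six.Ring

/-! Kernel-checkable tables killing every class of the descent. -/

namespace Pool.Agent.Lib_helper94.Six

open Zsqrtd

def mem (c : ℕ) : List ℕ → Bool
  | [] => false
  | a :: l => or (Nat.beq c a) (mem c l)

/-- bit mask of a list -/
def mask : List ℕ → ℕ
  | [] => 0
  | a :: l => Nat.lor (Nat.pow 2 a) (mask l)

/-- bit test -/
def bit (B c : ℕ) : Bool := Nat.beq (Nat.land (Nat.shiftRight B c) 1) 1

def allB (p : ℕ → Bool) (N : ℕ) : Bool := Nat.rec true (fun n ih => and (p n) ih) N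

theorem allB_spec {p : ℕ → Bool} {N : ℕ} (h : allB p N = true) : ∀ n < N, p n = true := by
  induction N with
  | zero => intro n hn; omega
  | succ N ih =>
    have h1 : allB p (N + 1) = and (p N) (allB p N) := rfl
    rw [h1, Bool.and_eq_true] at h
    intro n hn
    rcases Nat.lt_succ_iff_lt_or_eq.1 hn with h2 | h2
    · exact ih h.2 n h2
    · rw [h2]; exact h.1

/-- binary powering modulo l with fuel -/
def pm (l : ℕ) : ℕ → ℕ → ℕ → ℕ → ℕ
  | 0, _, _, acc => acc
  | f + 1, b, n, acc => pm l f (Nat.mod (Nat.mul b b) l) (Nat.div n 2)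
      (cond (Nat.beq (Nat.mod n 2) 1) (Nat.mod (Nat.mul acc b) l) acc)

theorem pm_spec (l : ℕ) : ∀ (f b n acc : ℕ), n < 2 ^ f →
    ((pm l f b n acc : ℕ) : ZMod l) = (acc : ZMod l) * (b : ZMod l) ^ n
  | 0, b, n, acc, h => by
    have : n = 0 := by simpa using h
    subst this
    simp [pm]
  | f + 1, b, n, acc, h => by
    have h2 : n / 2 < 2 ^ f := by rw [pow_succ] at h; omega
    have ih := pm_spec l f (b * b % l) (n / 2)
      (cond (Nat.beq (n % 2) 1) (acc * b % l) acc) h2
    have e1 : pm l (f + 1) b n acc = pm l f (b * b % l) (n / 2)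
      (cond (Nat.beq (n % 2) 1) (acc * b % l) acc) := rfl
    rw [e1, ih, ZMod.natCast_mod]
    have hn := Nat.div_add_mod n 2
    rcases Nat.mod_two_eq_zero_or_one n with h3 | h3
    · rw [h3]
      have e2 : Nat.beq 0 1 = false := rfl
      rw [e2, cond_false]
      conv_rhs => rw [← hn, h3]
      push_cast
      rw [add_zero, pow_mul]; ring
    · rw [h3]
      have e2 : Nat.beq 1 1 = true := rfl
      rw [e2, cond_true, ZMod.natCast_mod]
      conv_rhs => rw [← hn, h3]
      push_cast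
      rw [pow_add, pow_mul]; ring

/-- one root Y of unity of order T; X is a square root of Y + 6, or 0 when Y + 6 is not a square -/
def okY (l s T : ℕ) (B : ℕ) (Y X : ℕ) : Bool :=
  and (Nat.beq (Nat.mod (Nat.pow Y T) l) 1)
    (cond (Nat.beq X 0)
      (Nat.beq (pm l 20 (Nat.add Y 6) (Nat.div l 2) 1) (Nat.sub l 1))
      (and (Nat.ble X l) (and (Nat.beq (Nat.mod (Nat.mul X X) l) (Nat.mod (Nat.add Y 6) l))
        (and (bit B (Nat.mod (Nat.pow (Nat.add X s) T) l))
          (bit B (Nat.mod (Nat.pow (Nat.add (Nat.sub l X) s) T) l))))))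

/-- the Y's are strictly increasing from the bound k on, n of them, below l -/
def okYs (l s T : ℕ) (B : ℕ) : List (ℕ × ℕ) → ℕ → ℕ → Bool
  | [], _, n => Nat.beq n 0
  | (Y, X) :: L, k, n => and (Nat.blt k Y) (and (Nat.blt Y l) (and (not (Nat.beq n 0))
      (and (okY l s T B Y X) (okYs l s T B L Y (Nat.pred n)))))

structure Entry where
  d : ℕ
  l : ℕ
  s : ℕ
  T : ℕ
  ys : List (ℕ × ℕ)
  cand : List ℕ

def okE (q : ℕ) (e : Entry) : Bool :=
  and (Nat.blt (Nat.div e.l 2) 1048576)
  (and (Nat.beq (Nat.add (Nat.mul q e.T) 1) e.l)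
  (and (Nat.beq (Nat.mod (Nat.mul e.s e.s) e.l) (Nat.mod 6 e.l))
  (and (Nat.beq (Nat.mod e.T 2) 0)
  (and (not (Nat.beq (Nat.mod (Nat.mul 2 e.s) e.l) 0))
  (and (bit (mask e.cand) (Nat.mod (Nat.pow (Nat.mul 2 e.s) e.T) e.l))
  (and (bit (mask e.cand) (Nat.mod (Nat.pow (Nat.mod (Nat.pow (Nat.mul 2 e.s) e.T) e.l) (Nat.sub q 1)) e.l))
  (okYs e.l e.s e.T (mask e.cand) e.ys 0 e.T)))))))

theorem beq_of_eq {a b : ℕ} (h : a = b) : Nat.beq a b = true := by
  subst h; exact Nat.beq_refl _

theorem natmod_eq {m n l : ℕ} (h : (m : ZMod l) = (n : ZMod l)) : m % l = n % l :=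
  (ZMod.natCast_eq_natCast_iff' m n l).1 h

theorem okYs_spec {l s T : ℕ} {B : ℕ} : ∀ (L : List (ℕ × ℕ)) (k n : ℕ),
    okYs l s T B L k n = true → L.length = n ∧
      (∀ p ∈ L, k < p.1 ∧ p.1 < l ∧ okY l s T B p.1 p.2 = true) ∧
      (L.map Prod.fst).Pairwise (· < ·)
  | [], k, n, h => by
    have : n = 0 := Nat.eq_of_beq_eq_true h
    subst this
    simp
  | (Y, X) :: L, k, n, h => by
    simp only [okYs, Bool.and_eq_true] at h
    obtain ⟨h1, h2, h3, h4, h5⟩ := h
    obtain ⟨i1, i2, i3⟩ := okYs_spec L Y (Nat.pred n) h5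
    have h1' : k < Y := Nat.le_of_ble_eq_true h1
    have h2' : Y < l := Nat.le_of_ble_eq_true h2
    have h3' : n ≠ 0 := by
      rintro rfl
      simp at h3
    refine ⟨?_, ?_, ?_⟩
    · rw [List.length_cons, i1]; simp only [Nat.pred_eq_sub_one]; omega
    · intro p hp
      rcases List.mem_cons.1 hp with h | h
      · rw [h]; exact ⟨h1', h2', h4⟩
      · obtain ⟨a1, a2, a3⟩ := i2 p h
        exact ⟨lt_trans h1' a1, a2, a3⟩
    · rw [List.map_cons, List.pairwise_cons]
      refine ⟨?_, i3⟩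
      intro a ha
      obtain ⟨p, hp, rfl⟩ := List.mem_map.1 ha
      exact (i2 p hp).1

theorem roots_complete {l s T : ℕ} [Fact l.Prime] {B : ℕ} {ys : List (ℕ × ℕ)}
    (hT : 0 < T) (h : okYs l s T B ys 0 T = true) (z : ZMod l) (hz : z ^ T = 1) :
    ∃ Y X : ℕ, (Y : ZMod l) = z ∧ okY l s T B Y X = true := by
  classical
  obtain ⟨hlen, hall, hpw⟩ := okYs_spec ys 0 T h
  have hl1 : 1 < l := (Fact.out : l.Prime).one_lt
  let N : Finset ℕ := (ys.map Prod.fst).toFinset
  have hN : N.card = T := by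
    rw [List.toFinset_card_of_nodup (hpw.imp (fun h => ne_of_lt h)), List.length_map, hlen]
  have hNlt : ∀ a ∈ N, a < l ∧ ∃ X, okY l s T B a X = true := by
    intro a ha
    have ha' : a ∈ ys.map Prod.fst := List.mem_toFinset.1 ha
    obtain ⟨p, hp, rfl⟩ := List.mem_map.1 ha'
    obtain ⟨-, a2, a3⟩ := hall p hp
    exact ⟨a2, p.2, a3⟩
  let S : Finset (ZMod l) := N.image (fun n : ℕ => (n : ZMod l))
  have hS : S.card = T := by
    rw [← hN]
    apply Finset.card_image_of_injOn
    intro a ha b hb hab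
    have := natmod_eq hab
    rwa [Nat.mod_eq_of_lt (hNlt a ha).1, Nat.mod_eq_of_lt (hNlt b hb).1] at this
  have hsub : S ⊆ Polynomial.nthRootsFinset T (1 : ZMod l) := by
    intro a ha
    obtain ⟨n, hn, rfl⟩ := Finset.mem_image.1 ha
    rw [Polynomial.mem_nthRootsFinset hT]
    obtain ⟨-, X, hX⟩ := hNlt n hn
    rw [okY, Bool.and_eq_true] at hX
    have h1 : n ^ T % l = 1 := Nat.eq_of_beq_eq_true hX.1
    have h2 : ((n ^ T : ℕ) : ZMod l) = ((1 : ℕ) : ZMod l) :=
      (ZMod.natCast_eq_natCast_iff' _ _ _).2 (by rw [h1, Nat.mod_eq_of_lt hl1])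
    push_cast at h2
    exact h2
  have hcard : (Polynomial.nthRootsFinset T (1 : ZMod l)).card ≤ S.card := by
    rw [hS, Polynomial.nthRootsFinset_def]
    exact (Multiset.toFinset_card_le _).trans (Polynomial.card_nthRoots T 1)
  have heq := Finset.eq_of_subset_of_card_le hsub hcard
  have hzS : z ∈ S := by
    rw [heq, Polynomial.mem_nthRootsFinset hT]; exact hz
  obtain ⟨n, hn, hnz⟩ := Finset.mem_image.1 hzS
  obtain ⟨-, X, hX⟩ := hNlt n hn
  exact ⟨n, X, hnz, hX⟩

/-- the power of the unit at the entry e, class j -/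
def wj (e : Entry) (j : ℕ) : ℕ :=
  Nat.mod (Nat.pow (Nat.mod (Nat.pow (Nat.add 5 (Nat.mul 2 e.s)) e.T) e.l) j) e.l

theorem okE_sound {q : ℕ} {e : Entry} (hl : e.l.Prime) (hok : okE q e = true) {x : ℤ} {j : ℕ}
    {g : ℤ√6} (hq : 0 < q) (h : (⟨x, 1⟩ : ℤ√6) = eps ^ j * g ^ q) : bit (mask e.cand) (wj e j) = true := by
  obtain ⟨d, l, s, T, ys, cand⟩ := e
  simp only [okE, Bool.and_eq_true, Bool.not_eq_true', Nat.beq_eq] at hok
  obtain ⟨h0l, h1, h2, h3, h4, h5, h6, h7⟩ := hok
  simp only at hl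
  have : Fact l.Prime := ⟨hl⟩
  have hqT : q * T = l - 1 := by
    have : q * T + 1 = l := h1
    omega
  have hs : (s : ZMod l) * (s : ZMod l) = ((6 : ℤ) : ZMod l) := by
    have : ((s * s : ℕ) : ZMod l) = ((6 : ℕ) : ZMod l) := (ZMod.natCast_eq_natCast_iff' _ _ _).2 h2
    push_cast at this ⊢
    exact this
  have hs' : (-(s : ZMod l)) * (-(s : ZMod l)) = ((6 : ℤ) : ZMod l) := by
    rw [← hs]; ring
  have h2s : (2 * s : ZMod l) ≠ 0 := by
    intro h0
    have : ((2 * s : ℕ) : ZMod l) = ((0 : ℕ) : ZMod l) := by push_cast; exact h0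
    have := natmod_eq this
    rw [Nat.zero_mod] at this
    have h4' : ¬ ((2 * s) % l = 0) := by
      intro h00
      have : Nat.beq (Nat.mod (Nat.mul 2 s) l) 0 = true := beq_of_eq h00
      rw [this] at h4
      exact Bool.noConfusion h4
    exact h4' this
  let φ : ℤ√6 →+* ZMod l := Zsqrtd.lift ⟨(s : ZMod l), hs⟩
  let ψ : ℤ√6 →+* ZMod l := Zsqrtd.lift ⟨-(s : ZMod l), hs'⟩
  have ha : (x : ZMod l) + s = (5 + 2 * s) ^ j * (φ g) ^ q := by
    have := congrArg φ h
    rw [map_mul, map_pow, map_pow] at this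
    have e1 : φ ⟨x, 1⟩ = (x : ZMod l) + s := by
      show (x : ZMod l) + ((1 : ℤ) : ZMod l) * s = _
      push_cast; ring
    have e2 : φ eps = 5 + 2 * s := by
      show ((5 : ℤ) : ZMod l) + ((2 : ℤ) : ZMod l) * s = _
      push_cast; ring
    rw [e1, e2] at this
    exact this
  have hb : (x : ZMod l) - s = (5 - 2 * s) ^ j * (ψ g) ^ q := by
    have := congrArg ψ h
    rw [map_mul, map_pow, map_pow] at this
    have e1 : ψ ⟨x, 1⟩ = (x : ZMod l) - s := by
      show (x : ZMod l) + ((1 : ℤ) : ZMod l) * (-s) = _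
      push_cast; ring
    have e2 : ψ eps = 5 - 2 * s := by
      show ((5 : ℤ) : ZMod l) + ((2 : ℤ) : ZMod l) * (-s) = _
      push_cast; ring
    rw [e1, e2] at this
    exact this
  have hee : (5 + 2 * s : ZMod l) * (5 - 2 * s) = 1 := by
    have : (s : ZMod l) * s = 6 := by rw [hs]; push_cast; rfl
    linear_combination (-4) * this
  have fer : ∀ z : ZMod l, z ≠ 0 → (z ^ q) ^ T = 1 := by
    intro z hz
    rw [← pow_mul, hqT]
    exact ZMod.pow_card_sub_one_eq_one hz
  have hw : ((wj ⟨d, l, s, T, ys, cand⟩ j : ℕ) : ZMod l) = ((5 + 2 * s) ^ T) ^ j := by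
    show ((((5 + 2 * s) ^ T % l) ^ j % l : ℕ) : ZMod l) = _
    rw [ZMod.natCast_mod]; push_cast; rw [ZMod.natCast_mod]; push_cast; rfl
  have hwlt : wj ⟨d, l, s, T, ys, cand⟩ j % l = wj ⟨d, l, s, T, ys, cand⟩ j :=
    Nat.mod_eq_of_lt (Nat.mod_lt _ hl.pos)
  have hT2 : Even T := Nat.even_iff.2 h3
  have hl20 : l / 2 < 2 ^ 20 := by
    have h12 : Nat.blt (Nat.div l 2) 1048576 = true := h0l
    have h13 : l / 2 < 1048576 := Nat.lt_of_lt_of_le (Nat.lt_succ_self _) (Nat.le_of_ble_eq_true h12)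
    exact h13
  have hT0 : 0 < T := by
    rcases Nat.eq_zero_or_pos T with h | h
    · rw [h, mul_zero] at hqT
      have := hl.two_le
      omega
    · exact h
  by_cases hb0 : (x : ZMod l) - s = 0
  · -- x = s
    have hx : (x : ZMod l) = s := by linear_combination hb0
    have ha' : (2 * s : ZMod l) = (5 + 2 * s) ^ j * (φ g) ^ q := by
      rw [← ha, hx]; ring
    have hg : φ g ≠ 0 := by
      intro h0
      rw [h0, zero_pow (by omega), mul_zero] at ha'
      exact h2s ha'
    have hpow : (2 * s : ZMod l) ^ T = ((5 + 2 * s) ^ T) ^ j := by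
      have e3 : (2 * s : ZMod l) ^ T = ((5 + 2 * s) ^ j * (φ g) ^ q) ^ T := congrArg (· ^ T) ha'
      rw [e3, mul_pow, fer _ hg, mul_one, pow_right_comm]
    have : (2 * s) ^ T % l = wj ⟨d, l, s, T, ys, cand⟩ j := by
      rw [← hwlt]
      apply natmod_eq
      rw [hw]; push_cast; exact hpow
    rw [← this]; exact h5
  · by_cases ha0 : (x : ZMod l) + s = 0
    · have hx : (x : ZMod l) = -s := by linear_combination ha0
      have hb' : (-(2 * s) : ZMod l) = (5 - 2 * s) ^ j * (ψ g) ^ q := by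
        rw [← hb, hx]; ring
      have hg : ψ g ≠ 0 := by
        intro h0
        rw [h0, zero_pow (by omega), mul_zero] at hb'
        exact h2s (neg_eq_zero.1 hb')
      have hpow : (2 * s : ZMod l) ^ T = ((5 - 2 * s) ^ T) ^ j := by
        have e3 : (-(2 * s) : ZMod l) ^ T = ((5 - 2 * s) ^ j * (ψ g) ^ q) ^ T := congrArg (· ^ T) hb'
        rw [← hT2.neg_pow, e3, mul_pow, fer _ hg, mul_one, pow_right_comm]
      have hq1 : ((2 * s : ZMod l) ^ T) ^ q = 1 := by
        rw [pow_right_comm]; exact fer _ h2s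
      have hc1 : ((5 + 2 * s : ZMod l) ^ T) ^ j * (2 * s : ZMod l) ^ T = 1 := by
        rw [hpow, ← mul_pow, ← mul_pow, hee, one_pow, one_pow]
      have hc : ((5 + 2 * s : ZMod l) ^ T) ^ j = ((2 * s : ZMod l) ^ T) ^ (q - 1) := by
        have hq2 : ((2 * s : ZMod l) ^ T) ^ (q - 1) * (2 * s : ZMod l) ^ T = 1 := by
          rw [← pow_succ, Nat.sub_add_cancel hq]; exact hq1
        have hne : (2 * s : ZMod l) ^ T ≠ 0 := pow_ne_zero _ h2s
        exact mul_right_cancel₀ hne (hc1.trans hq2.symm)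
      have : ((2 * s) ^ T % l) ^ (q - 1) % l = wj ⟨d, l, s, T, ys, cand⟩ j := by
        rw [← hwlt]
        apply natmod_eq
        rw [hw, hc]; push_cast; rw [ZMod.natCast_mod]; push_cast; rfl
      rw [← this]; exact h6
    · -- generic
      have hga : φ g ≠ 0 := by
        intro h0
        rw [h0, zero_pow (by omega), mul_zero] at ha
        exact ha0 ha
      have hgb : ψ g ≠ 0 := by
        intro h0
        rw [h0, zero_pow (by omega), mul_zero] at hb
        exact hb0 hb
      have hpa : ((x : ZMod l) + s) ^ T = ((5 + 2 * s) ^ T) ^ j := by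
        rw [ha, mul_pow, fer _ hga, mul_one, pow_right_comm]
      have hpb : ((x : ZMod l) - s) ^ T = ((5 - 2 * s) ^ T) ^ j := by
        rw [hb, mul_pow, fer _ hgb, mul_one, pow_right_comm]
      have hab : ((x : ZMod l) ^ 2 - 6) ^ T = 1 := by
        have : (x : ZMod l) ^ 2 - 6 = ((x : ZMod l) + s) * ((x : ZMod l) - s) := by
          have : (s : ZMod l) * s = 6 := by rw [hs]; push_cast; rfl
          linear_combination this
        rw [this, mul_pow, hpa, hpb, ← mul_pow, ← mul_pow, hee, one_pow, one_pow]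
      obtain ⟨Y, X, hY, hok⟩ := roots_complete hT0 h7 _ hab
      rw [okY, Bool.and_eq_true] at hok
      obtain ⟨-, hok⟩ := hok
      have hY6 : ((Y + 6 : ℕ) : ZMod l) = (x : ZMod l) ^ 2 := by
        push_cast; rw [hY]; ring
      rcases Bool.eq_false_or_eq_true (Nat.beq X 0) with hX0 | hX0
      · -- not a square
        exfalso
        rw [hX0, cond_true] at hok
        have h8 : pm l 20 (Nat.add Y 6) (Nat.div l 2) 1 = l - 1 := Nat.eq_of_beq_eq_true hok
        have h9 := pm_spec l 20 (Y + 6) (l / 2) 1 hl20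
        have h10 : ((pm l 20 (Y + 6) (l / 2) 1 : ℕ) : ZMod l) = -1 := by
          have : pm l 20 (Y + 6) (l / 2) 1 = l - 1 := h8
          rw [this, Nat.cast_sub hl.one_le, ZMod.natCast_self]; simp
        rw [h10, Nat.cast_one, one_mul, hY6, ← pow_mul] at h9
        have hl2 : 2 * (l / 2) = l - 1 := by
          rcases hl.eq_two_or_odd with h | h
          · exfalso
            apply h2s
            have e5 : ((2 : ℕ) : ZMod l) = 0 := by
              rw [ZMod.natCast_eq_zero_iff, h]
            have e6 : (2 : ZMod l) = 0 := by exact_mod_cast e5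
            rw [e6, zero_mul]
          · omega
        have hne2 : l ≠ 2 := by
          intro h
          rw [h] at hl2
          omega
        rw [hl2] at h9
        by_cases hx0 : (x : ZMod l) = 0
        · rw [hx0, zero_pow (by have := hl.two_le; omega)] at h9
          exact one_ne_zero (neg_eq_zero.1 h9)
        · rw [ZMod.pow_card_sub_one_eq_one hx0] at h9
          have : (2 : ZMod l) = 0 := by linear_combination -h9
          apply h2s
          rw [this, zero_mul]
      · rw [hX0, cond_false] at hok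
        simp only [Bool.and_eq_true] at hok
        obtain ⟨hXl, hXX, hm1, hm2⟩ := hok
        have hXl' : X ≤ l := Nat.le_of_ble_eq_true hXl
        have hXX' : ((X * X : ℕ) : ZMod l) = ((Y + 6 : ℕ) : ZMod l) :=
          (ZMod.natCast_eq_natCast_iff' _ _ _).2 (Nat.eq_of_beq_eq_true hXX)
        rw [hY6] at hXX'
        push_cast at hXX'
        have hpm : ((x : ZMod l) - X) * ((x : ZMod l) + X) = 0 := by linear_combination -hXX'
        rcases mul_eq_zero.1 hpm with h11 | h11
        · have : (X + s) ^ T % l = wj ⟨d, l, s, T, ys, cand⟩ j := by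
            rw [← hwlt]
            apply natmod_eq
            rw [hw]; push_cast
            have : (X : ZMod l) = x := by linear_combination -h11
            rw [this]; exact hpa
          rw [← this]; exact hm1
        · have : (l - X + s) ^ T % l = wj ⟨d, l, s, T, ys, cand⟩ j := by
            rw [← hwlt]
            apply natmod_eq
            rw [hw]; push_cast [Nat.cast_sub hXl']
            have : (l : ZMod l) - (X : ZMod l) = x := by
              rw [ZMod.natCast_self]; linear_combination -h11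
            rw [this]; exact hpa
          rw [← this]; exact hm2

def allL {α : Type} (p : α → Bool) : List α → Bool
  | [] => true
  | a :: l => and (p a) (allL p l)

def anyL {α : Type} (p : α → Bool) : List α → Bool
  | [] => false
  | a :: l => or (p a) (anyL p l)

theorem allL_spec {α : Type} {p : α → Bool} : ∀ {L : List α}, allL p L = true → ∀ a ∈ L, p a = true
  | [], _, a, ha => by simp at ha
  | b :: L, h, a, ha => by
    rw [allL, Bool.and_eq_true] at h
    rcases List.mem_cons.1 ha with h1 | h1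
    · rw [h1]; exact h.1
    · exact allL_spec h.2 a h1

theorem anyL_spec {α : Type} {p : α → Bool} : ∀ {L : List α}, anyL p L = true → ∃ a ∈ L, p a = true
  | [], h => by simp [anyL] at h
  | b :: L, h => by
    rw [anyL, Bool.or_eq_true] at h
    rcases h with h | h
    · exact ⟨b, List.mem_cons_self, h⟩
    · obtain ⟨a, ha, hp⟩ := anyL_spec h
      exact ⟨a, List.mem_cons_of_mem _ ha, hp⟩

def okQ (q : ℕ) (e : Entry) : Bool :=
  and (Nat.beq (Nat.mod q e.d) 0) (and (not (Nat.beq e.d 0)) (okE e.d e))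

/-- every class j below q outside the list S is excluded by an entry of L -/
def kill (q : ℕ) (L : List Entry) (S : List ℕ) : Bool :=
  and (allL (okQ q) L)
    (allB (fun j => or (mem j S) (anyL (fun e => not (bit (mask e.cand) (wj e j))) L)) q)

theorem mem_spec {c : ℕ} : ∀ {L : List ℕ}, mem c L = true → c ∈ L
  | [], h => by simp [mem] at h
  | a :: L, h => by
    rw [mem, Bool.or_eq_true] at h
    rcases h with h | h
    · rw [Nat.eq_of_beq_eq_true h]; exact List.mem_cons_self
    · exact List.mem_cons_of_mem _ (mem_spec h)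

theorem kill_survive {q : ℕ} {L : List Entry} {S : List ℕ} (hq : 2 ≤ q) (hodd : Odd q)
    (hL : ∀ e ∈ L, e.l.Prime) (hk : kill q L S = true) {x y : ℤ} (h : x ^ 2 - 6 = y ^ q) :
    ∃ j ∈ S, ∃ g : ℤ√6, (⟨x, 1⟩ : ℤ√6) = eps ^ j * g ^ q := by
  obtain ⟨j, hj, g, hg⟩ := descent hq hodd h
  rw [kill, Bool.and_eq_true] at hk
  have h0 := allB_spec hk.2 j hj
  rw [Bool.or_eq_true] at h0
  rcases h0 with h0 | h0
  · exact ⟨j, mem_spec h0, g, hg⟩
  · exfalso
    obtain ⟨e, he, h1⟩ := anyL_spec h0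
    have h3 := allL_spec hk.1 e he
    simp only [okQ, Bool.and_eq_true, Nat.beq_eq] at h3
    obtain ⟨hd, hd0, hok⟩ := h3
    have hd0' : 0 < e.d := by
      rcases Nat.eq_zero_or_pos e.d with h4 | h4
      · rw [h4] at hd0; simp at hd0
      · exact h4
    obtain ⟨m, hm⟩ := Nat.dvd_of_mod_eq_zero hd
    have hg' : (⟨x, 1⟩ : ℤ√6) = eps ^ j * (g ^ m) ^ e.d := by
      rw [hg, hm, ← pow_mul, mul_comm m e.d]
    have h2 := okE_sound (hL e he) hok hd0' hg'
    rw [h2] at h1
    exact Bool.noConfusion h1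

theorem kill_sound {q : ℕ} {L : List Entry} (hq : 2 ≤ q) (hodd : Odd q)
    (hL : ∀ e ∈ L, e.l.Prime) (hk : kill q L [] = true) (x y : ℤ) : x ^ 2 - 6 ≠ y ^ q := by
  intro h
  obtain ⟨j, hj, _⟩ := kill_survive hq hodd hL hk h
  simp at hj

end Pool.Agent.Lib_helper94.Six
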